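import Pool.Agent.P8H40.SE.CovM
import Pool.Agent.P8H40.SE.Exi
import Pool.Agent.P8H63.SE.Key

/-!
# Incomplete periods of abelian covers of the line at ALL tuples of nearby integers

`g_1, …, g_p ∈ ℤ[X]` are nonconstant with positive leading coefficients and without common or multiple roots, and
`a_1, …, a_q` are different vectors in `([0, 1) ∩ ℚ)^p`, the characters. The curves
`y_κ^n = ∏ g_i^(n a_κi)` are covers of the line, and `t^j ∏ g_i(t)^(-a_κi) dt`, `j + 2 ≤ N_κ`, are the differential forms
of the first and second kind belonging to the character `a_κ`, where `N_κ` is the number of the finite branch points. The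
exponent of the character at infinity, `∑ a_κi deg g_i`, is assumed not to be an integer (infinity is a branch point). For
example `p = q = 1`, `a = 1/2`: the curve `y² = g(t)` with `g` of odd degree `2γ + 1`, and the `2γ` forms `t^j dt / y`.

Let `I_κj` be the primitive of such a form which vanishes at infinity, `-∫_t^∞`; if it does not converge, the one which is
`t^(-e)` times an analytic function of `1/t`, with the exponent `e` (not an integer). Let `b_1, …, b_s` be different nonzero
integers. For ALL `(k+1)`-tuples of integers `m_0, …, m_k` in a short interval `[M, M + M^c]` at distance at least `G` of each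
other, the `(k + 1) (∑ (N_κ - 1) + s) + k` numbers

  `I_κj(m_l)`, `log (1 + b_i / m_l)`, `log (m_l / m_0)` (`l ≠ 0`)

satisfy no nonzero polynomial relation of degree at most `δ` in each unknown with coefficients in any number field of degree at
most `D`. More generally this holds for all but `r` of any numbers `w` from which these can be obtained linearly, over `K`,
with the help of `r` constants `θ` (uniformly in the constants): for example for integrals along arbitrary paths from
arbitrary base points.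

These numbers are the periods of the relative motives `H¹(C, {∞, P_l})`, `P_l` a point of abscissa `m_l`, and of the Kummer
motives of the `1 + b_i/m_l`, `m_l/m_0`, which are not periods of `C`: the period conjecture predicts in particular their
algebraic independence. There are no exceptional tuples.

The proof: the primitives are, up to radicals, `m^(-e)` times the values at `1/m` of G-functions `∑ c_j x^j / (j + e)`, which
are algebraically independent over `ℚ(x)` (all the local exponents are non-integral: package KEY by helper63; families with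
rational exponents, by helper88; powers and primitives of G-functions and their values, by helper47); and the method of
Chudnovsky-André in several points, with all the products (`Pool.Agent.Y124.TL.base`, `Pool.Agent.Y124.TH.core_abs`).
-/

set_option autoImplicit false

open Polynomial Filter Module

namespace Pool.Agent.Results.MP_12eca1_ag.AbelianCoversAllTuples

/-- the coefficient of the differential form `t^j ∏ g_i(t)^(-a_i) dt` -/
noncomputable def form {p : ℕ} (g : Fin p → ℤ[X]) (a : Fin p → ℚ) (j : ℕ) (t : ℝ) : ℝ :=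
  t ^ j * ∏ i, ((g i).map (Int.castRingHom ℝ)).eval t ^ (-(a i : ℝ))

/-- the exponent `e` of its primitive at infinity -/
noncomputable def expo {p : ℕ} (g : Fin p → ℤ[X]) (a : Fin p → ℚ) (j : ℕ) : ℚ :=
  ∑ i, a i * ((g i).natDegree : ℚ) - ((j : ℚ) + 1)

/-- the number of the finite branch points of the character `a` -/
def branch {p : ℕ} (g : Fin p → ℤ[X]) (a : Fin p → ℚ) : ℕ := ∑ i, if a i = 0 then 0 else (g i).natDegree

/-- `F` is, near infinity, a primitive of the form, and `t^(-e)` times an analytic function of `1/t` -/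
def IsPrim {p : ℕ} (g : Fin p → ℤ[X]) (a : Fin p → ℚ) (j : ℕ) (F : ℝ → ℂ) : Prop :=
  ∃ H : ℂ → ℂ, AnalyticAt ℂ H 0 ∧ ∀ᶠ t : ℝ in atTop, HasDerivAt F ((form g a j t : ℝ) : ℂ) t ∧
    F t = ((t ^ (-(expo g a j : ℝ)) : ℝ) : ℂ) * H (1 / (t : ℂ))

/-- the places of the numbers: `(l, κ, j)` with `j + 2 ≤ N_κ`, `(l, i)` with `i ≤ s`, and `l` with `1 ≤ l ≤ k` -/
abbrev Place {p q : ℕ} (g : Fin p → ℤ[X]) (a : Fin q → Fin p → ℚ) (s k : ℕ) : Type :=
  (Fin (k + 1) × ((Σ κ : Fin q, Fin (branch g (a κ) - 1)) ⊕ Fin s)) ⊕ Fin k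

/-- the numbers `I_κj(m_l)`, `log (1 + b_i / m_l)`, and `log (m_l / m_0)` for `l ≠ 0` -/
noncomputable def numbers {p q s k : ℕ} (g : Fin p → ℤ[X]) (a : Fin q → Fin p → ℚ) (b : Fin s → ℤ)
    (I : Fin q → ℕ → ℝ → ℂ) (m : Fin (k + 1) → ℕ) : Place g a s k → ℂ :=
  Sum.elim (fun x => Sum.elim (fun y => I y.1 y.2 (m x.1)) (fun i => ((Real.log (1 + b i / m x.1) : ℝ) : ℂ)) x.2)
    (fun l => ((Real.log (m l.succ / m 0) : ℝ) : ℂ))

/-- The primitives exist. -/
theorem exists_prim {p : ℕ} (g : Fin p → ℤ[X]) (hlc : ∀ i, 0 < (g i).leadingCoeff) (a : Fin p → ℚ)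
    (hinf : ∀ z : ℤ, ∑ i, a i * ((g i).natDegree : ℚ) ≠ z) (j : ℕ) : ∃ F, IsPrim g a j F := by
  refine P8H40.SE.exists_prim g a j hlc fun z hz => ?_
  unfold P8H40.SE.ex at hz
  apply hinf (z + ((j : ℕ) + 1))
  push_cast
  linarith

/-- They are the integrals to infinity if these converge. -/
theorem eq_integral {p : ℕ} (g : Fin p → ℤ[X]) (hlc : ∀ i, 0 < (g i).leadingCoeff) (a : Fin p → ℚ) (j : ℕ)
    (he : 0 < expo g a j) (F : ℝ → ℂ) (hF : IsPrim g a j F) :
    ∀ᶠ t : ℝ in atTop, F t = -((∫ u in Set.Ioi t, form g a j u : ℝ) : ℂ) :=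
  P8H40.SE.prim_integral g a j hlc he hF

/-- The theorem: the first part says that all the numbers are independent in bounded degree, the second one treats numbers
from which they can be obtained linearly with the help of `r` constants. -/
theorem result {p q s : ℕ} (g : Fin p → ℤ[X]) (hg : Squarefree (∏ i, (g i).map (Int.castRingHom ℚ)))
    (hdeg : ∀ i, 0 < (g i).natDegree) (hlc : ∀ i, 0 < (g i).leadingCoeff)
    (a : Fin q → Fin p → ℚ) (ha : ∀ κ i, 0 ≤ a κ i ∧ a κ i < 1) (hinj : Function.Injective a)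
    (hinf : ∀ κ, ∀ z : ℤ, ∑ i, a κ i * ((g i).natDegree : ℚ) ≠ z)
    (b : Fin s → ℤ) (hb : Function.Injective b) (hb0 : ∀ i, b i ≠ 0)
    (I : Fin q → ℕ → ℝ → ℂ) (hI : ∀ κ j, IsPrim g (a κ) j (I κ j)) :
    ∃ G : ℕ, ∀ k r δ D : ℕ, ∃ (c : ℝ) (M₀ : ℕ), 0 < c ∧ ∀ M : ℕ, M₀ ≤ M → ∀ m : Fin (k + 1) → ℕ,
      (∀ l, M ≤ m l ∧ (m l : ℝ) ≤ M + (M : ℝ) ^ c) → (∀ l l', l ≠ l' → (G : ℤ) ≤ |(m l : ℤ) - m l'|) →
      ∀ (K : IntermediateField ℚ ℂ) [FiniteDimensional ℚ K], finrank ℚ K ≤ D →
        (∀ P : MvPolynomial (Place g a s k) K, (∀ i, P.degreeOf i ≤ δ) →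
          MvPolynomial.aeval (numbers g a b I m) P = 0 → P = 0) ∧
        ∀ (θ : Fin r → ℂ) (w : Place g a s k → ℂ),
          (∀ x, numbers g a b I m x ∈ Submodule.span K (insert 1 (Set.range w ∪ Set.range θ))) →
          ∃ σ : Fin ((k + 1) * (∑ κ, (branch g (a κ) - 1) + s) + k - r) → Place g a s k, Function.Injective σ ∧
            ∀ P : MvPolynomial (Fin ((k + 1) * (∑ κ, (branch g (a κ) - 1) + s) + k - r)) K,
              (∀ i, P.degreeOf i ≤ δ) → MvPolynomial.aeval (fun i => w (σ i)) P = 0 → P = 0 := by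
  classical
  obtain ⟨G, hG⟩ := P8H40.SE.cover_main P8H63.SE.key_thm P8H63.SE.sim_thm P8H47.SE.pw P8H47.SE.pri P8H88.SE.gfd
    P8H47.SE.val g hg hdeg hlc a ha hinj hinf b hb hb0 I fun κ j _ => hI κ j
  have hcard : ∀ k : ℕ, Fintype.card (Place g a s k) = (k + 1) * (∑ κ, (branch g (a κ) - 1) + s) + k := by
    intro k
    rw [Fintype.card_sum, Fintype.card_prod, Fintype.card_sum, Fintype.card_sigma, Fintype.card_fin, Fintype.card_fin,
      Fintype.card_fin]
    simp only [Fintype.card_fin]
  refine ⟨G, fun k r δ D => ?_⟩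
  obtain ⟨c₁, M₁, hc₁, h₁⟩ := hG k 0 δ D
  obtain ⟨c₂, M₂, hc₂, h₂⟩ := hG k r δ D
  refine ⟨min c₁ c₂, M₁ + M₂ + 1, lt_min hc₁ hc₂, fun M hM m hm hsep K _ hK => ?_⟩
  have hM1 : (1 : ℝ) ≤ M := by
    have : 1 ≤ M := by omega
    exact_mod_cast this
  constructor
  · intro P hP h0
    obtain ⟨σ, hσ, hLI⟩ := h₁ M (by omega) m (fun l => ⟨(hm l).1, (hm l).2.trans (by
      gcongr
      exact min_le_left _ _)⟩) hsep K hK (fun i => i.elim0) (numbers g a b I m) (fun x =>
        Submodule.subset_span (Set.mem_insert_of_mem _ (Or.inl ⟨x, rfl⟩)))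
    exact P8H40.SE.mv_full (numbers g a b I m) rfl σ hσ hLI P hP h0
  · intro θ w hw
    have h6 := h₂ M (by omega) m (fun l => ⟨(hm l).1, (hm l).2.trans (by
      gcongr
      exact min_le_right _ _)⟩) hsep K hK θ w hw
    have h5 := hcard k
    change Fintype.card (P8H40.SE.Idx g a s k) = _ at h5
    rw [h5] at h6
    obtain ⟨σ, hσ, hLI⟩ := h6
    exact ⟨σ, hσ, fun P hP h0 => hLI.mv P hP h0⟩

end Pool.Agent.Results.MP_12eca1_ag.AbelianCoversAllTuples
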