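import Pool.Agent.P8H10.KM.Ex

/-!
# The period conjecture for the Kummer 1-motives of powers with approximable exponents

Let `q_0, q_1, …` be a sequence of integers `≥ 2`, and let `tower h` be the `h`-fold iterate of
`n ↦ 2 ^ n`. A real number is *rationally approximable* if, for some `h` and every `κ`, for all large `k`
it has a rational approximation with a denominator at most `tower h (q_k)` and with an error of at most
`1 / tower κ (q_k)`; these numbers form a field `R`. The *approximable* complex numbers are defined in the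
same way, with algebraic approximations; they form an algebraically closed field `K ⊇ R`. Let `Λ` be the
`ℚ`-space of **all** complex logarithms of **all** algebraic numbers (so `2 π i ∈ Λ`), and `R Λ` its `R`-span.

**Theorem.** Let `t_1, …, t_n ∈ R Λ`, and let `r` be the dimension over `ℚ` of the space generated by the
`t_j` in `ℂ / Λ`. Then the transcendence degree of `R(exp t_1, …, exp t_n)` over `R` is exactly `r`, and
the transcendence degree of `ℚ(2 π i, t_1, …, t_n, exp t_1, …, exp t_n)` is at least `r + 1`. If no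
nontrivial integral combination of the `t_j` is a logarithm of an algebraic number, then the `n + 1`
numbers `2 π i, exp t_1, …, exp t_n` are algebraically independent over `R`, and the transcendence degree
of `ℚ(2 π i, t_1, …, t_n, exp t_1, …, exp t_n)` is at least `n + 1`. This is the inequality of Q1 for the motive
`H^1(G_m, {1, α_1, …, α_n})`, where `α_j = exp t_j`, whose motivic Galois group has dimension `n + 1` (by the theorem of
André which is quoted in the problem; the `α_j` are multiplicatively independent).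

The condition can be checked: for logarithms `l_1, …, l_s` of algebraic numbers which are
linearly independent over `ℚ` and `y_1, …, y_s ∈ R` the number `exp (∑ y_k l_k)` is algebraic only if all `y_k`
are rational. In particular `l_1, …, l_s` are linearly independent over `R`; and `K ∩ R Λ = 0`.

For tuples of elements `w_j = z_j + t_j` of the larger space `K ⊕ R Λ` the transcendence degree of
`R(exp w_1, …, exp w_n)` over `R` is the dimension of the space generated by the `w_j` in `ℂ / Λ`.

**Examples.** For the explicit sequence `q_k = 2 ^ e_k`, `e_0 = 1`, `e_(k + 1) = tower (k + 2) (e_k)`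
and pairwise disjoint infinite sets `S_1, …, S_n` of natural numbers let `ξ_j` be the sum of the `1 / q_k`, `k ∈ S_j`; let
`l_1, …, l_s` be logarithms of algebraic numbers which are linearly independent over `ℚ`. Then the numbers
`2 π i` and `exp (ξ_j l_k)` are algebraically independent, and Q1 holds for the motive of the `n s` numbers
`exp (ξ_j l_k)`.

The starting files contain results of this kind for the combinations of the (real) logarithms of the
primes (`MP_209724_lc.SchanuelOnSubspaces`), where a theorem of Besicovitch and Mordell is used. The new ingredient is a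
finiteness theorem for the relations `∑ a_i γ_i = 0` in which the coefficients `a_i` are in a fixed number
field and the `γ_i` are products of fractional powers of fixed algebraic numbers, with bounded exponents and unbounded
denominators: the quotients `γ_i / γ_j` in minimal relations form a finite set (Kummer theory, radicals in
cyclotomic extensions, Northcott's theorem, and Mann's theorem for arbitrary algebraic coefficients, made
uniform in the coefficients).
-/

set_option autoImplicit false

namespace Pool.Agent.Results.MP_12eca1_ag.KummerMotives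

/-- The `h`-fold iterate of `n ↦ 2 ^ n`. -/
def tower : ℕ → ℕ → ℕ
  | 0, q => q
  | h + 1, q => 2 ^ tower h q

/-- `a` is a zero of a nonzero polynomial over `ℤ` of degree at most `N` whose coefficients have absolute
value at most `N`. -/
def Bounded (N : ℕ) (a : ℂ) : Prop :=
  ∃ P : Polynomial ℤ, P ≠ 0 ∧ P.natDegree ≤ N ∧ (∀ n, |P.coeff n| ≤ N) ∧ Polynomial.aeval a P = 0

/-- For some `h` and every `κ`, for all large `k` the number `z` has an algebraic approximation of
complexity at most `tower h (q k)` and with an error of at most `1 / tower κ (q k)`. -/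
def Approximable (q : ℕ → ℕ) (z : ℂ) : Prop :=
  ∃ h : ℕ, ∀ κ : ℕ, ∃ k₀ : ℕ, ∀ k ≥ k₀, ∃ a : ℂ, Bounded (tower h (q k)) a ∧
    ‖z - a‖ ≤ ((tower κ (q k) : ℕ) : ℝ)⁻¹

/-- For some `h` and every `κ`, for all large `k` the real number `x` has a rational approximation with a
denominator at most `tower h (q k)` and with an error of at most `1 / tower κ (q k)`. -/
def RationallyApproximable (q : ℕ → ℕ) (x : ℝ) : Prop :=
  ∃ h : ℕ, ∀ κ : ℕ, ∃ k₀ : ℕ, ∀ k ≥ k₀, ∃ (u : ℤ) (v : ℕ), 1 ≤ v ∧ v ≤ tower h (q k) ∧
    |x - u / v| ≤ ((tower κ (q k) : ℕ) : ℝ)⁻¹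

/-- The exponents `e_0 = 1`, `e_(k + 1) = tower (k + 2) (e_k)`. -/
def e : ℕ → ℕ
  | 0 => 1
  | k + 1 => tower (k + 2) (e k)

/-- The explicit sequence `q_k = 2 ^ e_k`. -/
def q₀ (k : ℕ) : ℕ := 2 ^ e k

/-- The sum of the numbers `1 / q_k` over the elements `k` of the set `A`. -/
noncomputable def number (A : Set ℕ) : ℝ :=
  ∑' k, Set.indicator A (fun k => 1 / (q₀ k : ℝ)) k

/-- `Λ`: the space of the complex logarithms of the algebraic numbers. -/
noncomputable def Logs : Submodule ℚ ℂ := Submodule.span ℚ {l : ℂ | IsAlgebraic ℚ (Complex.exp l)}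

/-- The dimension over `ℚ` of the space generated by the `t j` in `ℂ / Λ`. -/
noncomputable def rank {n : ℕ} (t : Fin n → ℂ) : ℕ :=
  Module.finrank ℚ (Submodule.span ℚ (Set.range fun j => Logs.mkQ (t j)))

/-- The numbers `2 π i`, `t j` and `exp (t j)`: the periods of `H^1(G_m, {1, exp (t j)})`, and the
`exp (t j)`. -/
noncomputable def periods {ι : Type} (t : ι → ℂ) : Set ℂ :=
  {2 * (Real.pi : ℂ) * Complex.I} ∪ Set.range t ∪ Set.range fun j => Complex.exp (t j)

/-- The family consisting of `2 π i` and of the numbers `exp (t j)`. -/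
noncomputable def withTwoPiI {ι : Type} (t : ι → ℂ) : Option ι → ℂ :=
  fun o => o.elim (2 * (Real.pi : ℂ) * Complex.I) fun j => Complex.exp (t j)

theorem tower_eq : tower = Pool.Agent.R347.LW.tow := by
  funext h q
  induction h with
  | zero => rfl
  | succ h ih => rw [tower, Pool.Agent.R347.LW.tow, ih]

theorem approximable_iff (q : ℕ → ℕ) (z : ℂ) : Approximable q z ↔ Pool.Agent.R347.LW.Appr q z := by
  unfold Approximable Pool.Agent.R347.LW.Appr
  rw [tower_eq]
  rfl

theorem rationallyApproximable_iff (q : ℕ → ℕ) (x : ℝ) :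
    RationallyApproximable q x ↔ Pool.Agent.R347.LW.RAppr q x := by
  unfold RationallyApproximable Pool.Agent.R347.LW.RAppr
  rw [tower_eq]

theorem e_eq : e = Pool.Agent.R347.LW.eT := by
  funext k
  induction k with
  | zero => rfl
  | succ k ih => rw [e, Pool.Agent.R347.LW.eT, ih, tower_eq]

theorem q₀_eq : q₀ = Pool.Agent.R347.LW.qT := by
  funext k
  rw [q₀, Pool.Agent.R347.LW.qT, e_eq]

theorem number_eq : number = Pool.Agent.R347.LW.xiT := by
  funext A
  rw [number, Pool.Agent.R347.LW.xiT]
  refine tsum_congr fun k => ?_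
  have h1 : 1 / (q₀ k : ℝ) = (1 / 2 : ℝ) ^ Pool.Agent.R347.LW.eT k := by
    rw [q₀, e_eq]
    push_cast
    rw [one_div, one_div, inv_pow]
  by_cases h : k ∈ A
  · rw [Set.indicator_of_mem h, Pool.Agent.R347.LW.trT_of_mem h, h1]
  · rw [Set.indicator_of_notMem h, Pool.Agent.R347.LW.trT_of_notMem h]

theorem Logs_eq : Logs = Pool.Agent.P8H10.KM.Lam :=
  Submodule.span_eq Pool.Agent.P8H10.KM.Lam

theorem mem_Logs {l : ℂ} : l ∈ Logs ↔ IsAlgebraic ℚ (Complex.exp l) := by
  rw [Logs_eq]
  exact Iff.rfl

theorem rank_eq {n : ℕ} (t : Fin n → ℂ) : rank t = Pool.Agent.P8H10.KM.rk t := by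
  have h : ∀ L : Submodule ℚ ℂ, L = Pool.Agent.P8H10.KM.Lam →
      Module.finrank ℚ (Submodule.span ℚ (Set.range fun j => L.mkQ (t j))) =
        Pool.Agent.P8H10.KM.rk t := by
    rintro _ rfl
    rfl
  exact h _ Logs_eq

/-- independence modulo `Λ` -/
theorem independent_of {n : ℕ} {t : Fin n → ℂ}
    (h : ∀ m : Fin n → ℤ, IsAlgebraic ℚ (Complex.exp (∑ j, m j * t j)) → m = 0) :
    LinearIndependent ℚ (fun j => Pool.Agent.P8H10.KM.Lam.mkQ (t j)) := by
  rw [Fintype.linearIndependent_iff]
  intro c hc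
  have hdvd : ∀ i, ∃ b : ℤ, (b : ℚ) = (∏ i, (c i).den : ℕ) * c i := by
    intro i
    obtain ⟨b, hb⟩ := Finset.dvd_prod_of_mem (fun i => (c i).den) (Finset.mem_univ i)
    refine ⟨b * (c i).num, ?_⟩
    rw [hb]
    push_cast
    have := Rat.den_mul_eq_num (c i)
    rw [← this]
    ring
  choose b hb using hdvd
  have h1 : ∑ j, (b j : ℂ) * t j ∈ Pool.Agent.P8H10.KM.Lam := by
    rw [← Submodule.Quotient.mk_eq_zero, ← Submodule.mkQ_apply]
    have h2 : ∑ j, (b j : ℂ) * t j = ((∏ i, (c i).den : ℕ) : ℚ) • ∑ j, c j • t j := by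
      rw [Finset.smul_sum]
      refine Finset.sum_congr rfl fun j _ => ?_
      have h3 : ((b j : ℤ) : ℂ) = ((∏ i, (c i).den : ℕ) : ℂ) * (c j : ℂ) := by exact_mod_cast hb j
      rw [h3, smul_smul, Rat.smul_def]
      push_cast
      ring
    rw [h2, map_smul, map_sum]
    simp_rw [map_smul]
    rw [hc, smul_zero]
  have h4 := h b h1
  intro j
  have h5 := hb j
  rw [h4, Pi.zero_apply, Int.cast_zero] at h5
  have h6 : ((∏ i, (c i).den : ℕ) : ℚ) ≠ 0 := by
    exact_mod_cast Finset.prod_ne_zero_iff.2 fun i _ => (c i).den_nz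
  exact (mul_eq_zero.1 h5.symm).resolve_left h6

theorem span_eq (R : IntermediateField ℚ ℂ) :
    Submodule.span R (Logs : Set ℂ) = Submodule.span R {l : ℂ | IsAlgebraic ℚ (Complex.exp l)} := by
  congr 1
  ext l
  exact mem_Logs

/-- **Main result.** -/
theorem result :
    (∀ q : ℕ → ℕ, (∀ k, 2 ≤ q k) → ∃ R K : IntermediateField ℚ ℂ,
      (∀ z, z ∈ R ↔ ∃ x : ℝ, RationallyApproximable q x ∧ z = x) ∧
      (∀ z, z ∈ K ↔ Approximable q z) ∧
      (∀ (n : ℕ) (t : Fin n → ℂ), (∀ j, t j ∈ Submodule.span R (Logs : Set ℂ)) →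
        Algebra.trdeg R (IntermediateField.adjoin R (Set.range fun j => Complex.exp (t j))) =
          rank t ∧
        (rank t : Cardinal) + 1 ≤ Algebra.trdeg R (IntermediateField.adjoin R (periods t)) ∧
        (rank t : Cardinal) + 1 ≤ Algebra.trdeg ℚ (IntermediateField.adjoin ℚ (periods t)) ∧
        ((∀ m : Fin n → ℤ, IsAlgebraic ℚ (Complex.exp (∑ j, m j * t j)) → m = 0) →
          (∀ m : Fin n → ℤ, ∏ j, Complex.exp (t j) ^ m j = 1 → m = 0) ∧
          AlgebraicIndependent R (withTwoPiI t) ∧
          (n : Cardinal) + 1 ≤ Algebra.trdeg ℚ (IntermediateField.adjoin ℚ (periods t)))) ∧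
      (∀ (s : ℕ) (l : Fin s → ℂ), (∀ k, IsAlgebraic ℚ (Complex.exp (l k))) →
        LinearIndependent ℚ l → LinearIndependent R l ∧
        ∀ y : Fin s → ℝ, (∀ k, RationallyApproximable q (y k)) →
          (IsAlgebraic ℚ (Complex.exp (∑ k, y k * l k)) ↔ ∀ k, ∃ r : ℚ, y k = r)) ∧
      (∀ z ∈ K, z ∈ Submodule.span R (Logs : Set ℂ) → z = 0) ∧
      (∀ (n : ℕ) (w z t : Fin n → ℂ), (∀ j, w j = z j + t j) → (∀ j, z j ∈ K) →
        (∀ j, t j ∈ Submodule.span R (Logs : Set ℂ)) →
        Algebra.trdeg R (IntermediateField.adjoin R (Set.range fun j => Complex.exp (w j))) =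
          rank w ∧
        ((∀ m : Fin n → ℤ, IsAlgebraic ℚ (Complex.exp (∑ j, m j * w j)) → m = 0) →
          AlgebraicIndependent R (fun j => Complex.exp (w j))))) ∧
    (∀ l, l ∈ Logs ↔ IsAlgebraic ℚ (Complex.exp l)) ∧
    (∀ k, 2 ≤ q₀ k) ∧ (∀ A : Set ℕ, RationallyApproximable q₀ (number A)) ∧
    (∀ (n s : ℕ) (S : Fin n → Set ℕ), (∀ j, (S j).Infinite) →
      (∀ i j, i ≠ j → Disjoint (S i) (S j)) → ∀ l : Fin s → ℂ,
      (∀ k, IsAlgebraic ℚ (Complex.exp (l k))) → LinearIndependent ℚ l →
        AlgebraicIndependent ℚ (withTwoPiI fun p : Fin n × Fin s => number (S p.1) * l p.2) ∧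
        (n * s : Cardinal) + 1 ≤ Algebra.trdeg ℚ (IntermediateField.adjoin ℚ
          (periods fun p : Fin n × Fin s => number (S p.1) * l p.2))) := by
  refine ⟨fun q hq => ⟨Pool.Agent.P8H10.KM.RC hq, Pool.Agent.R347.LW.UK hq, fun z => ?_,
    fun z => (approximable_iff q z).symm, fun n t ht => ?_, fun s l hl hli => ?_,
    fun z hz ht => ?_, fun n w z t hw hz ht => ?_⟩, fun l => mem_Logs, ?_, ?_, ?_⟩
  · rw [Pool.Agent.P8H10.KM.mem_RC]
    simp only [rationallyApproximable_iff]
  · have ht' : ∀ j, Pool.Agent.P8H10.KM.InM q (t j) := fun j => by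
      rw [Pool.Agent.P8H10.KM.inM_iff hq, ← span_eq]
      exact ht j
    rw [rank_eq]
    refine ⟨Pool.Agent.P8H10.KM.trdeg_expR Pool.Agent.P8H4.KM.lio2 hq t ht',
      Pool.Agent.P8H10.KM.trdeg_periodsR Pool.Agent.P8H4.KM.lio2 hq t ht',
      Pool.Agent.P8H10.KM.trdeg_periodsQ Pool.Agent.P8H4.KM.lio2 hq t ht', fun h => ?_⟩
    have hli := independent_of h
    refine ⟨fun m hm => h m ?_, Pool.Agent.P8H10.KM.alg_ind_pi Pool.Agent.P8H4.KM.lio2 hq t ht' hli,
      ?_⟩
    · rw [Complex.exp_sum]
      have h1 : ∀ j, Complex.exp (m j * t j) = Complex.exp (t j) ^ m j := fun j =>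
        Complex.exp_int_mul _ _
      simp_rw [h1]
      rw [hm]
      exact isAlgebraic_one
    · have h2 := Pool.Agent.P8H10.KM.trdeg_periodsQ Pool.Agent.P8H4.KM.lio2 hq t ht'
      rwa [Pool.Agent.P8H10.KM.rk_of_li hli] at h2
  · refine ⟨Pool.Agent.P8H10.KM.liR Pool.Agent.P8H4.KM.lio hq l hl hli, fun y hy => ⟨fun h => ?_,
      fun h => ?_⟩⟩
    · exact Pool.Agent.P8H10.KM.rational_of_mem Pool.Agent.P8H4.KM.lio hq l hl hli y
        (fun k => (rationallyApproximable_iff q _).1 (hy k)) h
    · choose r hr using h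
      have h1 : ∑ k, (y k : ℂ) * l k ∈ Pool.Agent.P8H10.KM.Lam := by
        refine sum_mem fun k _ => ?_
        have h2 : (y k : ℂ) * l k = r k • l k := by
          rw [Rat.smul_def, hr k]
          push_cast
          rfl
        rw [h2]
        exact Submodule.smul_mem _ _ (hl k)
      exact h1
  · refine Pool.Agent.P8H10.KM.K_inter hq hz ?_
    rw [Pool.Agent.P8H10.KM.inM_iff hq, ← span_eq]
    exact ht
  · have ht' : ∀ j, Pool.Agent.P8H10.KM.InM q (t j) := fun j => by
      rw [Pool.Agent.P8H10.KM.inM_iff hq, ← span_eq]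
      exact ht j
    rw [rank_eq]
    exact ⟨Pool.Agent.P8H10.KM.trdeg_KM Pool.Agent.P8H4.KM.lio2 hq w z t hw hz ht', fun h =>
      Pool.Agent.P8H10.KM.alg_ind_KM Pool.Agent.P8H4.KM.lio2 hq w z t hw hz ht'
        (independent_of h)⟩
  · intro k
    rw [q₀_eq]
    exact Pool.Agent.R347.LW.two_le_qT k
  · intro A
    rw [rationallyApproximable_iff, q₀_eq, number_eq]
    exact Pool.Agent.R347.LW.xiT_rappr A
  · intro n s S hS hd l hl hli
    rw [number_eq]
    have hM : ∀ p : Fin n × Fin s, Pool.Agent.P8H10.KM.InM Pool.Agent.R347.LW.qT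
        ((Pool.Agent.R347.LW.xiT (S p.1) : ℂ) * l p.2) := fun p =>
      ⟨1, fun _ => Pool.Agent.R347.LW.xiT (S p.1), fun _ => l p.2,
        fun _ => Pool.Agent.R347.LW.xiT_rappr _, fun _ => hl _, by simp⟩
    have h1 := (Pool.Agent.P8H10.KM.alg_ind_pi' Pool.Agent.P8H4.KM.lio2
      Pool.Agent.R347.LW.two_le_qT _ hM
      (Pool.Agent.P8H10.KM.family_li Pool.Agent.P8H4.KM.lio S hS hd l hl hli)).restrictScalars
        (algebraMap ℚ (Pool.Agent.P8H10.KM.RC Pool.Agent.R347.LW.two_le_qT)).injective
    refine ⟨h1, ?_⟩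
    have h3 := Pool.Agent.P8H10.KM.le_trdeg (F := IntermediateField.adjoin ℚ
      (periods fun p : Fin n × Fin s => (Pool.Agent.R347.LW.xiT (S p.1) : ℂ) * l p.2)) _
      (fun o => by
        rcases o with _ | p
        · exact IntermediateField.subset_adjoin _ _ (Or.inl (Or.inl rfl))
        · exact IntermediateField.subset_adjoin _ _ (Or.inr ⟨p, rfl⟩)) h1
    simpa using h3

end Pool.Agent.Results.MP_12eca1_ag.KummerMotives
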