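import Pool.Agent.P8H30.MX.Asm

/-!
# Mixed hypergeometric motives: periods and regulators at all tuples of fibres

Let `α_1, …, α_m` be rational numbers which are not integers, `c ≥ 1` and `s ≥ 0` integers. The operator
`L = θ^(2m) - c x ∏ (θ + α_j) (θ + 1 - α_j)`, `θ = x d/dx`, has maximally unipotent monodromy at `x = 0`; its solutions are the
periods of a family of hypergeometric motives of rank `2m` (for `m = 1` elliptic curves, for `m = 2` the 14 hypergeometric
families of Calabi-Yau threefolds). The solutions of `L ∘ θ^s` are the functions `f` for which `θ^s f` is a solution of `L`,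
the `s`-fold logarithmic primitives of the periods. They are the periods of extensions of `s` Tate motives by the
hypergeometric motives: for `m = 1`, `s = 1` the Mahler measures of families of elliptic curves
(regulators of `K_2`), for `m = 2`, `s = 1` regulators of higher Chow cycles on Calabi-Yau threefolds and the mirror
maps of local Calabi-Yau geometries.

The theorem: for ALL `k`-tuples of integers `t_1, …, t_k` in a short interval `[M, M + M^κ]` at distance at least `G` of
each other, the transcendence degree, in degree at most `δ`, of the numbers `log t_l` and of the entries of the period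
matrices `R_l P(1/t_l) S_l`, `P = Y Ω`, `Y = (θ^i f_j)`, is at least `(k - 1) (m (2m + 1) + 2 m s + 1)`, uniformly in `Ω`, in the
number fields of degree at most `D` and in the bases; and it is at least `k (m (2m + 1) + 2 m s + 1) - (r + 1)` if the entries
of `Ω` are algebraic over a field generated by `r` numbers. Here `m (2m + 1) + 2 m s` is the dimension of the semidirect
product of `Sp(2m)` and of the `s`-th power of its standard representation, the unipotent radical being as large as possible.

Proof: (1) Let `Q = ∏ (θ^2 - α_j^2)`. The Frobenius matrix of `θ^(s + 2m) - z θ^s Q(θ)` is block triangular and satisfies a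
system `Y' = (A / z + B / (1 - z)) Y`, where `A` and `B` are skew for a degenerate alternating form and `B` has rank one. The
relations between the entries are invariant under the monodromy at `0` and, by a connection matrix, under the monodromy at
`1`, which is a transvection for the degenerate form; hence under all transvections, hence under the semidirect product. So
`m (2m + 1) + 2 m s` entries of the holomorphic part are algebraically independent. (2) All entries and those of the
inverse matrix are G-functions; the theorem of the starting files on all tuples of fibres near a degenerate fibre is applied.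
(3) Gauge transformation `∏ (θ - α_j)`.
-/

set_option autoImplicit false

open PowerSeries Module

namespace Pool.Agent.Results.MP_12eca1_ag.MixedHypergeometricAllTuples

/-- the power series `k + ε` in the variable `ε` -/
noncomputable def shift (k : ℕ) : PowerSeries ℚ := C (k : ℚ) + X

/-- `a_k(ε) = ∏_{l < k} (l + ε)^s ∏_j (l + ε + α_j) (l + ε + 1 - α_j) / (l + 1 + ε)^(s + 2m)`. The series
`∑_k a_k(ε) c^k x^(k + ε)` solves the equation `(θ^(2m) - c x ∏_j (θ + α_j) (θ + 1 - α_j)) θ^s f = ε^(s + 2m) x^ε`, hence its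
coefficients `f_j` at `ε^j` with `j < s + 2m` are solutions of the homogeneous equation. -/
noncomputable def frob {m : ℕ} (s : ℕ) (α : Fin m → ℚ) (k : ℕ) : PowerSeries ℚ :=
  ∏ l ∈ Finset.range k, ((∏ j, ((shift l + C (α j)) * (shift l + C (1 - α j)))) * shift l ^ s *
    ((shift (l + 1))⁻¹) ^ (s + 2 * m))

/-- The matrix with the entries `(θ^i f_j)(1 / t)`, where `f_j(x)` is the coefficient of `ε^j` in the series
`∑_k a_k(ε) c^k x^(k + ε)`, `x^ε = ∑_l (log x)^l ε^l / l!`. -/
noncomputable def Y {m : ℕ} (s : ℕ) (α : Fin m → ℚ) (c t : ℕ) : Matrix (Fin (s + 2 * m)) (Fin (s + 2 * m)) ℂ :=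
  Matrix.of fun i j => ∑ l ∈ Finset.range ((j : ℕ) + 1), ((Real.log (1 / t) ^ l / l.factorial : ℝ) : ℂ) *
    ∑' k : ℕ, ((coeff ((j : ℕ) - l) (shift k ^ (i : ℕ) * frob s α k) : ℚ) : ℂ) * ((c : ℂ) / (t : ℂ)) ^ k

/-- Some `r` of the numbers `v i` (at `r` different places) satisfy no nonzero polynomial relation of degree at most `δ` in
each unknown with coefficients in `K`. -/
def TrdegGe {ι : Type} (r δ : ℕ) (K : IntermediateField ℚ ℂ) (v : ι → ℂ) : Prop :=
  ∃ σ : Fin r → ι, Function.Injective σ ∧ ∀ Q : MvPolynomial (Fin r) K, (∀ i, Q.degreeOf i ≤ δ) →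
    MvPolynomial.aeval (fun i => v (σ i)) Q = 0 → Q = 0

/-- Conclusion of the theorem: for all `k`-tuples of integers in `[M, M + M^κ]` at distance at least `G`, all number fields `K`
of degree at most `D` and all changes of bases `R_l, S_l` over `K`, the transcendence degree of the numbers `log t_l` and of the
entries of the period matrices `R_l (Y(1/t_l) Ω) S_l` is at least `r` in degree at most `δ`, and that of the entries of
the period matrices alone is at least `r - k`. -/
def Bound {m : ℕ} (s : ℕ) (α : Fin m → ℚ) (c : ℕ) (Ω : Matrix (Fin (s + 2 * m)) (Fin (s + 2 * m)) ℂ)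
    (G k δ D r : ℕ) (κ : ℝ) (M : ℕ) : Prop :=
  ∀ t : Fin k → ℕ, (∀ l, M ≤ t l ∧ (t l : ℝ) ≤ M + (M : ℝ) ^ κ) → (∀ l l', l ≠ l' → (G : ℤ) ≤ |(t l : ℤ) - t l'|) →
    ∀ (K : IntermediateField ℚ ℂ) [FiniteDimensional ℚ K], finrank ℚ K ≤ D →
      ∀ (R S : Fin k → (Matrix (Fin (s + 2 * m)) (Fin (s + 2 * m)) K)ˣ)
        (P : Fin k → Matrix (Fin (s + 2 * m)) (Fin (s + 2 * m)) ℂ),
        (∀ l, P l = (R l : Matrix (Fin (s + 2 * m)) (Fin (s + 2 * m)) K).map (algebraMap K ℂ) * (Y s α c (t l) * Ω) *
          (S l : Matrix (Fin (s + 2 * m)) (Fin (s + 2 * m)) K).map (algebraMap K ℂ)) →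
        TrdegGe (ι := Fin k × Option (Fin (s + 2 * m) × Fin (s + 2 * m))) r δ K
          (fun x => x.2.elim ((Real.log (t x.1) : ℝ) : ℂ) fun p => P x.1 p.1 p.2) ∧
        TrdegGe (ι := Fin k × Fin (s + 2 * m) × Fin (s + 2 * m)) (r - k) δ K (fun x => P x.1 x.2.1 x.2.2)

/-- The theorem. `G` depends only on the family; in the first part `κ` and `M₀` depend only on the family and on `k, δ, D`.
As `M₀ > c`, the series in the definition of the period matrices converge absolutely. -/
theorem result (m : ℕ) (hm : 1 ≤ m) (s : ℕ) (α : Fin m → ℚ) (hα : ∀ j, ∀ a : ℤ, α j ≠ a) (c : ℕ) (hc : 1 ≤ c) :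
    ∃ G : ℕ, ∀ k δ D : ℕ,
      (∃ (κ : ℝ) (M₀ : ℕ), 0 < κ ∧ c < M₀ ∧ ∀ M : ℕ, M₀ ≤ M →
        ∀ Ω : Matrix (Fin (s + 2 * m)) (Fin (s + 2 * m)) ℂ, IsUnit Ω →
          Bound s α c Ω G k δ D ((k - 1) * (m * (2 * m + 1) + 2 * m * s + 1)) κ M) ∧
      ∀ Ω : Matrix (Fin (s + 2 * m)) (Fin (s + 2 * m)) ℂ, IsUnit Ω → ∀ (r : ℕ) (ω : Fin r → ℂ),
        (∀ i j, IsAlgebraic (Algebra.adjoin ℚ (Set.range ω)) (Ω i j)) →
        ∃ (κ : ℝ) (M₀ : ℕ), 0 < κ ∧ c < M₀ ∧ ∀ M : ℕ, M₀ ≤ M →
          Bound s α c Ω G k δ D (k * (m * (2 * m + 1) + 2 * m * s + 1) - (r + 1)) κ M := by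
  have hβ : ∀ j, ∀ l : ℕ, (l : ℚ) + α j ≠ 0 ∧ (l : ℚ) + -α j ≠ 0 := by
    intro j l
    constructor
    · intro h
      apply hα j (-(l : ℤ))
      push_cast
      linear_combination h
    · intro h
      apply hα j (l : ℤ)
      push_cast
      linear_combination -h
  have hα0 : ∀ j, α j ≠ 0 := fun j h => hα j 0 (by rw [h]; simp)
  have hdim : 2 * m * (2 * m + 1) / 2 + s * (2 * m) = m * (2 * m + 1) + 2 * m * s := by
    rw [Nat.mul_assoc, Nat.mul_div_cancel_left _ (by norm_num)]
    ring
  have h := Pool.Agent.P8H30.MX.asm m hm s α hβ hα0 c hc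
  rw [hdim] at h
  exact h

end Pool.Agent.Results.MP_12eca1_ag.MixedHypergeometricAllTuples
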