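import Pool.Agent.P8H30.OX.Asm2

/-!
# Hypergeometric motives of odd rank: periods and regulators at all tuples of fibres

Let `α_1, …, α_m` be rational numbers which are not integers, `m ≥ 1`, and `c ≥ 1`, `s ≥ 0` integers. The operator
`L = θ^(2m+1) - c x (θ + 1/2) ∏ (θ + α_j) (θ + 1 - α_j)`, `θ = x d/dx`, has maximally unipotent monodromy at `x = 0` and a
reflection as local monodromy at `x = 1/c`; its solutions are the periods of a family of orthogonal hypergeometric motives of
rank `2m + 1`: for `m = 1` families of K3 surfaces of Picard number 19 (`α = 1/4`, `c = 256`: the mirrors of the quartic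
surfaces), for `m = 2` families of Calabi-Yau fourfolds (`α = (1/6, 1/3)`, `c = 6^6`: the mirrors of the sextic fourfolds). The
solutions of `L ∘ θ^s` are the `s`-fold logarithmic primitives of the periods, the periods of extensions of `s` Tate motives
by these motives; for `m = 1`, `s = 1` Mahler measures of families of K3 surfaces.

The theorem: for ALL `k`-tuples of integers `t_1, …, t_k` in a short interval `[M, M + M^κ]` at distance at least `G` of
each other, the transcendence degree, in degree at most `δ`, of the numbers `log t_l` and of the entries of the period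
matrices `R_l P(1/t_l) S_l`, `P = Y Ω`, `Y = (θ^i f_j)`, is at least `(k - 1) ((2m + 1) (m + s) + 1)`, uniformly in `Ω`, in the
number fields of degree at most `D` and in the bases; and it is at least `k ((2m + 1) (m + s) + 1) - (r + 1)` if the entries of
`Ω` are algebraic over a field generated by `r` numbers. Here `(2m + 1) (m + s)` is the dimension of the semidirect
product of `SO(2m + 1)` and of the `s`-th power of its standard representation.

Proof: (1) The local solutions at `z = 1` of the system `Y' = (A / z + B / (1 - z)) Y` have the exponent `-(2m + 1) / 2`, so the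
relations between the entries of the Frobenius matrix are invariant under a pseudo-reflection of order two, which is an
orthogonal reflection because the relations contain the invariance of a form `J_0 - z E` (bilinear concomitant); hence under all
reflections (two reflections whose product has infinite order generate all reflections of their plane), hence, by
Cartan and Dieudonné, under the semidirect product. By the Cayley transform `(2m + 1) (m + s)` entries of the holomorphic part
are algebraically independent. (2) All entries and those of the inverse matrix are G-functions; the theorem of the starting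
files on all tuples of fibres near a degenerate fibre is applied.
-/

set_option autoImplicit false

open PowerSeries Module

namespace Pool.Agent.Results.MP_12eca1_ag.OddRankHypergeometricAllTuples

/-- the power series `k + ε` in the variable `ε` -/
noncomputable def shift (k : ℕ) : PowerSeries ℚ := C (k : ℚ) + X

/-- `a_k(ε) = ∏_{l < k} (l + ε)^s (l + ε + 1/2) ∏_j (l + ε + α_j) (l + ε + 1 - α_j) / (l + 1 + ε)^(s + 2m + 1)`. The series
`∑_k a_k(ε) c^k x^(k + ε)` solves the equation
`(θ^(2m+1) - c x (θ + 1/2) ∏_j (θ + α_j) (θ + 1 - α_j)) θ^s f = ε^(s + 2m + 1) x^ε`, hence its coefficients `f_j` at `ε^j` with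
`j < s + 2m + 1` are solutions of the homogeneous equation. -/
noncomputable def frob {m : ℕ} (s : ℕ) (α : Fin m → ℚ) (k : ℕ) : PowerSeries ℚ :=
  ∏ l ∈ Finset.range k, (shift l ^ s * ((shift l + C (1 / 2)) * ∏ j, ((shift l + C (α j)) * (shift l + C (1 - α j)))) *
    ((shift (l + 1))⁻¹) ^ (s + (2 * m + 1)))

/-- The matrix with the entries `(θ^i f_j)(1 / t)`, where `f_j(x)` is the coefficient of `ε^j` in the series
`∑_k a_k(ε) c^k x^(k + ε)`, `x^ε = ∑_l (log x)^l ε^l / l!`. -/
noncomputable def Y {m : ℕ} (s : ℕ) (α : Fin m → ℚ) (c t : ℕ) :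
    Matrix (Fin (s + (2 * m + 1))) (Fin (s + (2 * m + 1))) ℂ :=
  Matrix.of fun i j => ∑ l ∈ Finset.range ((j : ℕ) + 1), ((Real.log (1 / t) ^ l / l.factorial : ℝ) : ℂ) *
    ∑' k : ℕ, ((coeff ((j : ℕ) - l) (shift k ^ (i : ℕ) * frob s α k) : ℚ) : ℂ) * ((c : ℂ) / (t : ℂ)) ^ k

/-- Some `r` of the numbers `v i` (at `r` different places) satisfy no nonzero polynomial relation of degree at most `δ` in
each unknown with coefficients in `K`. -/
def TrdegGe {ι : Type} (r δ : ℕ) (K : IntermediateField ℚ ℂ) (v : ι → ℂ) : Prop :=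
  ∃ σ : Fin r → ι, Function.Injective σ ∧ ∀ Q : MvPolynomial (Fin r) K, (∀ i, Q.degreeOf i ≤ δ) →
    MvPolynomial.aeval (fun i => v (σ i)) Q = 0 → Q = 0

/-- Conclusion of the theorem: for all `k`-tuples of integers in `[M, M + M^κ]` at distance at least `G`, all number fields `K`
of degree at most `D` and all changes of bases `R_l, S_l` over `K`, the transcendence degree of the numbers `log t_l` and of the
entries of the period matrices `R_l (Y(1/t_l) Ω) S_l` is at least `r` in degree at most `δ`, and that of the entries of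
the period matrices alone is at least `r - k`. -/
def Bound {m : ℕ} (s : ℕ) (α : Fin m → ℚ) (c : ℕ) (Ω : Matrix (Fin (s + (2 * m + 1))) (Fin (s + (2 * m + 1))) ℂ)
    (G k δ D r : ℕ) (κ : ℝ) (M : ℕ) : Prop :=
  ∀ t : Fin k → ℕ, (∀ l, M ≤ t l ∧ (t l : ℝ) ≤ M + (M : ℝ) ^ κ) → (∀ l l', l ≠ l' → (G : ℤ) ≤ |(t l : ℤ) - t l'|) →
    ∀ (K : IntermediateField ℚ ℂ) [FiniteDimensional ℚ K], finrank ℚ K ≤ D →
      ∀ (R S : Fin k → (Matrix (Fin (s + (2 * m + 1))) (Fin (s + (2 * m + 1))) K)ˣ)
        (P : Fin k → Matrix (Fin (s + (2 * m + 1))) (Fin (s + (2 * m + 1))) ℂ),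
        (∀ l, P l = (R l : Matrix (Fin (s + (2 * m + 1))) (Fin (s + (2 * m + 1))) K).map (algebraMap K ℂ) *
          (Y s α c (t l) * Ω) *
          (S l : Matrix (Fin (s + (2 * m + 1))) (Fin (s + (2 * m + 1))) K).map (algebraMap K ℂ)) →
        TrdegGe (ι := Fin k × Option (Fin (s + (2 * m + 1)) × Fin (s + (2 * m + 1)))) r δ K
          (fun x => x.2.elim ((Real.log (t x.1) : ℝ) : ℂ) fun p => P x.1 p.1 p.2) ∧
        TrdegGe (ι := Fin k × Fin (s + (2 * m + 1)) × Fin (s + (2 * m + 1))) (r - k) δ K (fun x => P x.1 x.2.1 x.2.2)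

theorem frob_eq {m : ℕ} (s : ℕ) (α : Fin m → ℚ) (k : ℕ) : frob s α k =
    Pool.Agent.Y119.HY.aq (s + (2 * m + 1)) (Polynomial.X ^ s * Pool.Agent.P8H30.OX.Qo α) k := by
  unfold frob Pool.Agent.Y119.HY.aq Pool.Agent.P8H30.OX.Qo
  refine Finset.prod_congr rfl fun l _ => ?_
  have h1 : Polynomial.aeval (Pool.Agent.Y119.HY.kx l) (Polynomial.X ^ s * ((Polynomial.X + Polynomial.C (1 / 2 : ℚ)) *
      ∏ j, ((Polynomial.X + Polynomial.C (α j)) * (Polynomial.X + Polynomial.C (1 - α j))))) =
      shift l ^ s * ((shift l + C (1 / 2)) * ∏ j, ((shift l + C (α j)) * (shift l + C (1 - α j)))) := by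
    rw [map_mul (Polynomial.aeval (R := ℚ) (Pool.Agent.Y119.HY.kx l)),
      map_pow (Polynomial.aeval (R := ℚ) (Pool.Agent.Y119.HY.kx l)),
      map_mul (Polynomial.aeval (R := ℚ) (Pool.Agent.Y119.HY.kx l)),
      map_add (Polynomial.aeval (R := ℚ) (Pool.Agent.Y119.HY.kx l)),
      map_prod (Polynomial.aeval (R := ℚ) (Pool.Agent.Y119.HY.kx l)), Polynomial.aeval_X, Polynomial.aeval_C]
    have h2 : ∀ j, Polynomial.aeval (R := ℚ) (Pool.Agent.Y119.HY.kx l)
        ((Polynomial.X + Polynomial.C (α j)) * (Polynomial.X + Polynomial.C (1 - α j))) =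
        (shift l + C (α j)) * (shift l + C (1 - α j)) := by
      intro j
      rw [map_mul (Polynomial.aeval (R := ℚ) (Pool.Agent.Y119.HY.kx l)),
        map_add (Polynomial.aeval (R := ℚ) (Pool.Agent.Y119.HY.kx l)),
        map_add (Polynomial.aeval (R := ℚ) (Pool.Agent.Y119.HY.kx l)), Polynomial.aeval_X, Polynomial.aeval_C,
        Polynomial.aeval_C]
      rfl
    simp only [h2]
    rfl
  rw [h1]
  rfl

/-- The theorem. `G` depends only on the family; in the first part `κ` and `M₀` depend only on the family and on `k, δ, D`.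
As `M₀ > c`, the series in the definition of the period matrices converge absolutely. -/
theorem result (m : ℕ) (hm : 1 ≤ m) (s : ℕ) (α : Fin m → ℚ) (hα : ∀ j, ∀ a : ℤ, α j ≠ a) (c : ℕ) (hc : 1 ≤ c) :
    ∃ G : ℕ, ∀ k δ D : ℕ,
      (∃ (κ : ℝ) (M₀ : ℕ), 0 < κ ∧ c < M₀ ∧ ∀ M : ℕ, M₀ ≤ M →
        ∀ Ω : Matrix (Fin (s + (2 * m + 1))) (Fin (s + (2 * m + 1))) ℂ, IsUnit Ω →
          Bound s α c Ω G k δ D ((k - 1) * ((2 * m + 1) * (m + s) + 1)) κ M) ∧
      ∀ Ω : Matrix (Fin (s + (2 * m + 1))) (Fin (s + (2 * m + 1))) ℂ, IsUnit Ω → ∀ (r : ℕ) (ω : Fin r → ℂ),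
        (∀ i j, IsAlgebraic (Algebra.adjoin ℚ (Set.range ω)) (Ω i j)) →
        ∃ (κ : ℝ) (M₀ : ℕ), 0 < κ ∧ c < M₀ ∧ ∀ M : ℕ, M₀ ≤ M →
          Bound s α c Ω G k δ D (k * ((2 * m + 1) * (m + s) + 1) - (r + 1)) κ M := by
  have hdim : (2 * m + 1) * (2 * m + 1 - 1) / 2 + s * (2 * m + 1) = (2 * m + 1) * (m + s) := by
    have h1 : (2 * m + 1) * (2 * m + 1 - 1) = 2 * ((2 * m + 1) * m) := by
      rw [Nat.add_sub_cancel]
      ring
    rw [h1, Nat.mul_div_cancel_left _ (by norm_num)]
    ring
  have h := Pool.Agent.P8H30.OX.asm m hm s α hα c hc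
  rw [hdim] at h
  have hg : Pool.Agent.Y119.HY.aq (s + (2 * m + 1)) (Polynomial.X ^ s * Pool.Agent.P8H30.OX.Qo α) = frob s α :=
    funext fun k => (frob_eq s α k).symm
  rw [hg] at h
  exact h

end Pool.Agent.Results.MP_12eca1_ag.OddRankHypergeometricAllTuples
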